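import Pool.Agent.J4H93.KT.Defs
import Pool.Agent.J4H93.KT.F3
import Pool.Agent.J4H93.KT.F4
import Pool.Agent.J4H93.KT.F5

/-!
All 5-colourings of the triangulated toroidal grid `T[a×b]` with `a, b ≥ 3` and
`min a b ≤ 5` are Kempe equivalent.

Proof idea: fix one row `x` of the torus (a row is a cycle of length `w = min a b`).  For
`w = 3, 4, 5` and all boundary rows `x`, `z` the colourings of the rows between them are
connected by exchanges of two colours that do not touch the boundary rows (for every number of
inner rows that occurs).  This is checked for short strips by kernel computation, up to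
rotations and permutations of the colours, and extended to all strips by induction.  Closed
walks of rows with different values of the fixed row are linked by fixing another row.
-/

namespace Pool.Agent.Results.MP_df4e53_co.NarrowGrids

open Pool.Agent.J4H93.KT

theorem result (a b : ℕ) (ha : 3 ≤ a) (hb : 3 ≤ b) (hab : min a b ≤ 5)
    (φ ψ : (torusGrid a b).Coloring (Fin 5)) : KempeEquivalent φ ψ := by
  have : NeZero a := ⟨by omega⟩
  have : NeZero b := ⟨by omega⟩
  rcases le_total a b with h | h
  · have ha5 : a ≤ 5 := by rwa [min_eq_left h] at hab
    apply torus_fwd (by omega) (by omega)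
    have h3 : a = 3 ∨ a = 4 ∨ a = 5 := by omega
    rcases h3 with rfl | rfl | rfl
    · exact width3 b (by omega)
    · exact width4 b (by omega)
    · exact width5 b (by omega)
  · have hb5 : b ≤ 5 := by rwa [min_eq_right h] at hab
    apply torus_bwd (by omega) (by omega)
    have h3 : b = 3 ∨ b = 4 ∨ b = 5 := by omega
    rcases h3 with rfl | rfl | rfl
    · exact width3 a (by omega)
    · exact width4 a (by omega)
    · exact width5 a (by omega)

end Pool.Agent.Results.MP_df4e53_co.NarrowGrids
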